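import Mathlib
import Pool.Agent.H515R2.KarpB
import Pool.Agent.Y699.K.Core

set_option autoImplicit false

namespace Pool.Agent.Results.MP_44891f_nt.SmallFormsUnique

open Matrix Polynomial

/-- A Hessenberg type `⟨a11, a21 | a12, a22, a32⟩`: integers with `a21, a32 ≥ 1` for which some
third column `(a13, a23, a33)` makes the determinant equal to one. -/
structure HessenbergType where
  a11 : ℤ
  a21 : ℤ
  a12 : ℤ
  a22 : ℤ
  a32 : ℤ
  one_le_a21 : 1 ≤ a21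
  one_le_a32 : 1 ≤ a32
  exists_column : ∃ a13 a23 a33 : ℤ,
    (!![a11, a12, a13; a21, a22, a23; 0, a32, a33] : Matrix (Fin 3) (Fin 3) ℤ).det = 1

/-- The matrix `H_Ω^v(m, n)`. -/
def HessenbergType.mat (Ω : HessenbergType) (v : Fin 3 → ℤ) (m n : ℤ) :
    Matrix (Fin 3) (Fin 3) ℤ :=
  !![Ω.a11, Ω.a12, Ω.a11 * m + Ω.a12 * n + v 0;
     Ω.a21, Ω.a22, Ω.a21 * m + Ω.a22 * n + v 1;
     0, Ω.a32, Ω.a32 * n + v 2]

/-- The set `H(Ω)` of the matrices of Hessenberg type `Ω`: all the `H_Ω^v(m, n)`, where `v` is a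
vector for which `H_Ω^v(0, 0)` has determinant one. -/
def HessenbergType.H (Ω : HessenbergType) : Set (Matrix (Fin 3) (Fin 3) ℤ) :=
  {A | ∃ v : Fin 3 → ℤ, (Ω.mat v 0 0).det = 1 ∧ ∃ m n : ℤ, A = Ω.mat v m n}

/-- NRS-matrices: integer matrices of determinant one whose characteristic polynomial is
irreducible over the rationals and has one real root and a pair of non-real complex conjugate
roots. -/
def IsNRS (A : Matrix (Fin 3) (Fin 3) ℤ) : Prop :=
  A.det = 1 ∧ Irreducible (A.charpoly.map (Int.castRingHom ℚ)) ∧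
    ∃ (r : ℝ) (z : ℂ), z.im ≠ 0 ∧
      A.charpoly.map (Int.castRingHom ℂ) = (X - C (r : ℂ)) * (X - C z) * (X - C (star z))

/-- Hessenberg-shaped matrices in `SL(3, ℤ)`: `m31 = 0` and `m21 m32 ≠ 0`. -/
def HessenbergShaped (M : Matrix (Fin 3) (Fin 3) ℤ) : Prop :=
  M.det = 1 ∧ M 2 0 = 0 ∧ M 1 0 * M 2 1 ≠ 0

/-- The Hessenberg complexity `|m21² m32|`. -/
def complexity (M : Matrix (Fin 3) (Fin 3) ℤ) : ℤ := |M 1 0 ^ 2 * M 2 1|

/-- `M'` is conjugate to `M` by an element of `GL(3, ℤ)`. -/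
def IntConj (M M' : Matrix (Fin 3) (Fin 3) ℤ) : Prop :=
  ∃ U : GL (Fin 3) ℤ, M' = (U : Matrix (Fin 3) (Fin 3) ℤ) * M * ((U⁻¹ : GL (Fin 3) ℤ) :
      Matrix (Fin 3) (Fin 3) ℤ)

/-- `M'` is conjugate to `M` by an upper triangular element of `GL(3, ℤ)`. -/
def UpperConj (M M' : Matrix (Fin 3) (Fin 3) ℤ) : Prop :=
  ∃ U : GL (Fin 3) ℤ, ((U : Matrix (Fin 3) (Fin 3) ℤ) 1 0 = 0 ∧
      (U : Matrix (Fin 3) (Fin 3) ℤ) 2 0 = 0 ∧ (U : Matrix (Fin 3) (Fin 3) ℤ) 2 1 = 0) ∧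
    M' = (U : Matrix (Fin 3) (Fin 3) ℤ) * M * ((U⁻¹ : GL (Fin 3) ℤ) :
      Matrix (Fin 3) (Fin 3) ℤ)

/-- A Hessenberg-shaped matrix is reduced if its complexity is minimal among all Hessenberg-shaped
matrices conjugate to it by an element of `GL(3, ℤ)`. -/
def IsReduced (M : Matrix (Fin 3) (Fin 3) ℤ) : Prop :=
  HessenbergShaped M ∧ ∀ M' : Matrix (Fin 3) (Fin 3) ℤ, HessenbergShaped M' →
    IntConj M M' → complexity M ≤ complexity M'

/-- Perfect Hessenberg matrices in `SL(3, ℤ)`: `0 ≤ a_{ij} < a_{j+1,j}` for `i ≤ j < 3`, and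
`a_{31} = 0`. -/
def IsPerfect (M : Matrix (Fin 3) (Fin 3) ℤ) : Prop :=
  M.det = 1 ∧ M 2 0 = 0 ∧ 0 ≤ M 0 0 ∧ M 0 0 < M 1 0 ∧ 0 ≤ M 0 1 ∧ M 0 1 < M 2 1 ∧
    0 ≤ M 1 1 ∧ M 1 1 < M 2 1

/-- The explicit constant of the theorem. -/
def bd (s B : ℤ) : ℤ := 2 * ((256 * (s ^ 2 * B + 1) ^ 2) ^ 2 + 100) ^ 2

open Pool.Agent.H515R2.Karp Pool.Agent.Y699.K

lemma F_hess {M : Matrix (Fin 3) (Fin 3) ℤ} (h : M 2 0 = 0) :
    F M ![1, 0, 0] = M 1 0 ^ 2 * M 2 1 := by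
  have h0 : ∀ i, K M ![1, 0, 0] i 0 = (![1, 0, 0] : Fin 3 → ℤ) i := by
    intro i; simp [K]
  have h1 : ∀ i, K M ![1, 0, 0] i 1 = (M *ᵥ ![1, 0, 0]) i := by
    intro i; simp [K]
  have h2 : ∀ i, K M ![1, 0, 0] i 2 = (M *ᵥ (M *ᵥ ![1, 0, 0])) i := by
    intro i; simp only [K, Matrix.of_apply, Matrix.mulVec_mulVec, ← pow_two]; rfl
  rw [F, Matrix.det_fin_three]
  simp only [h0, h1, h2]
  simp [Matrix.mulVec, dotProduct, Fin.sum_univ_three, h]
  ring

lemma F_conj {M : Matrix (Fin 3) (Fin 3) ℤ} (U : GL (Fin 3) ℤ) (x : Fin 3 → ℤ) :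
    |F ((U : Matrix (Fin 3) (Fin 3) ℤ) * M * ((U⁻¹ : GL (Fin 3) ℤ) : Matrix (Fin 3) (Fin 3) ℤ)) x|
      = |F M (((U⁻¹ : GL (Fin 3) ℤ) : Matrix (Fin 3) (Fin 3) ℤ) *ᵥ x)| := by
  have hpow : ∀ j : ℕ, ((U : Matrix (Fin 3) (Fin 3) ℤ) * M *
      ((U⁻¹ : GL (Fin 3) ℤ) : Matrix (Fin 3) (Fin 3) ℤ)) ^ j =
      (U : Matrix (Fin 3) (Fin 3) ℤ) * M ^ j *
      ((U⁻¹ : GL (Fin 3) ℤ) : Matrix (Fin 3) (Fin 3) ℤ) := by
    intro j
    exact Units.conj_pow U M j
  have hK : K ((U : Matrix (Fin 3) (Fin 3) ℤ) * M *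
      ((U⁻¹ : GL (Fin 3) ℤ) : Matrix (Fin 3) (Fin 3) ℤ)) x =
      (U : Matrix (Fin 3) (Fin 3) ℤ) *
        K M (((U⁻¹ : GL (Fin 3) ℤ) : Matrix (Fin 3) (Fin 3) ℤ) *ᵥ x) := by
    ext i j
    simp only [K, Matrix.of_apply, hpow, Matrix.mul_apply, ← Matrix.mulVec_mulVec]
    rfl
  rw [F, hK, Matrix.det_mul, abs_mul]
  have hU : |(U : Matrix (Fin 3) (Fin 3) ℤ).det| = 1 := by
    have : IsUnit (U : Matrix (Fin 3) (Fin 3) ℤ).det :=
      (Matrix.isUnit_iff_isUnit_det _).1 U.isUnit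
    exact Int.isUnit_iff_abs_eq.1 this
  rw [hU, one_mul, F]

/-- the inverse matrix has the opposite cubic form -/
lemma F_inv {M N : Matrix (Fin 3) (Fin 3) ℤ} (hNM : N * M = 1) (hMN : M * N = 1)
    (hM : M.det = 1) (y : Fin 3 → ℤ) : F N y = - F M y := by
  have hc : Commute (M ^ 2) N := by
    apply Commute.pow_left
    rw [Commute, SemiconjBy, hNM, hMN]
  have h1 : F N ((M ^ 2) *ᵥ y) = F N y := by
    rw [F_comm hc, Matrix.det_pow, hM]; ring
  have h2 : K N ((M ^ 2) *ᵥ y) = K M y * !![0, 0, 1; 0, 1, 0; 1, 0, 0] := by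
    ext i j
    rw [Matrix.mul_apply, Fin.sum_univ_three]
    fin_cases j
    · simp [K]
    · have : N *ᵥ ((M ^ 2) *ᵥ y) = M *ᵥ y := by
        rw [Matrix.mulVec_mulVec, pow_two, ← mul_assoc, hNM, one_mul]
      simpa [K] using congrFun this i
    · have : (N ^ 2) *ᵥ ((M ^ 2) *ᵥ y) = y := by
        rw [Matrix.mulVec_mulVec, pow_two, pow_two]
        have : N * N * (M * M) = 1 := by
          calc N * N * (M * M) = N * (N * M) * M := by noncomm_ring
            _ = 1 := by rw [hNM, mul_one, hNM]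
        rw [this, Matrix.one_mulVec]
      simpa [K] using congrFun this i
  rw [← h1, F, h2, Matrix.det_mul]
  have : (!![0, 0, 1; 0, 1, 0; 1, 0, 0] : Matrix (Fin 3) (Fin 3) ℤ).det = -1 := by
    rw [Matrix.det_fin_three]; simp
  rw [this, F]; ring

/-- data extracted from the NRS property -/
lemma nrs_data {A : Matrix (Fin 3) (Fin 3) ℤ} (h : IsNRS A) : ∃ r p q : ℝ, 0 < r ∧ 0 < q ∧
    r * q = 1 ∧ (A.trace : ℝ) = r + p ∧ (sec A : ℝ) = q + r * p ∧ 0 < q - p ^ 2 / 4 := by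
  obtain ⟨hdet, _, r, z, hz, hpoly⟩ := h
  rw [charpoly3, hdet] at hpoly
  have e0 := congrArg (eval (0 : ℂ)) hpoly
  have e1 := congrArg (eval (1 : ℂ)) hpoly
  have e2 := congrArg (eval (-1 : ℂ)) hpoly
  simp at e0 e1 e2
  have c1 : z * (starRingEnd ℂ) z = ((Complex.normSq z : ℝ) : ℂ) := Complex.mul_conj z
  have c2 : z + (starRingEnd ℂ) z = ((2 * z.re : ℝ) : ℂ) := Complex.add_conj z
  have f0 : (r : ℂ) * (Complex.normSq z : ℝ) = 1 := by
    rw [← c1]; linear_combination (-1) * e0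
  have f0' : r * Complex.normSq z = 1 := by exact_mod_cast f0
  have f1 : ((A.trace : ℤ) : ℂ) = (r : ℂ) + ((2 * z.re : ℝ) : ℂ) := by
    rw [← c2]
    linear_combination (-(1 / 2 : ℂ)) * e1 - (1 / 2 : ℂ) * e2 - e0
  have f2 : ((sec A : ℤ) : ℂ) = ((Complex.normSq z : ℝ) : ℂ) + (r : ℂ) * ((2 * z.re : ℝ) : ℂ) := by
    rw [← c2, ← c1]
    linear_combination ((1 / 2 : ℂ)) * e1 - (1 / 2 : ℂ) * e2
  have hq : 0 < Complex.normSq z := by
    rw [Complex.normSq_pos]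
    rintro rfl
    simp at hz
  have hr : 0 < r := by
    by_contra hcon
    push Not at hcon
    nlinarith
  refine ⟨r, 2 * z.re, Complex.normSq z, hr, hq, f0', by exact_mod_cast f1, by exact_mod_cast f2, ?_⟩
  rw [Complex.normSq_apply]
  have : 0 < z.im * z.im := by
    rcases lt_or_gt_of_ne hz with h1 | h1
    · exact mul_pos_of_neg_of_neg h1 h1
    · exact mul_pos h1 h1
  nlinarith

/-- trace and second coefficient are bounded if some small vector is not trivial -/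
lemma bounded {A : Matrix (Fin 3) (Fin 3) ℤ} (hA : IsNRS A) {D : ℤ} (hD : F A ![1, 0, 0] = D)
    (hD0 : D ≠ 0) {x : Fin 3 → ℤ} (hx0 : F A x ≠ 0) {B : ℤ} (hx : |F A x| ≤ B)
    (htriv : ¬ Triv A x) {G : ℝ} (hG : G = (256 * ((D ^ 2 * B + 1 : ℤ) : ℝ) ^ 2) ^ 2 + 100) :
    |(A.trace : ℝ)| ≤ 2 * G ^ 2 ∧ |(sec A : ℝ)| ≤ 2 * G ^ 2 := by
  obtain ⟨r, p, q, hr, hq, hrq, hS, hT, hE⟩ := nrs_data hA
  have hdet := hA.1
  have hCH := cayley A hdet
  have he : F A ![1, 0, 0] ≠ 0 := by rw [hD]; exact hD0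
  have b1 : q < G := by
    by_contra hcon
    push Not at hcon
    apply htriv
    refine bound' hdet hCH hrq hS hT hE he hx0 hx ?_
    rw [hD, ← hG]; exact hcon
  -- the inverse matrix
  obtain ⟨N, hN⟩ : ∃ N, N = A.adjugate := ⟨_, rfl⟩
  have hNA : N * A = 1 := by rw [hN, Matrix.adjugate_mul, hdet, one_smul]
  have hAN : A * N = 1 := by rw [hN, Matrix.mul_adjugate, hdet, one_smul]
  have hNdet : N.det = 1 := by
    have := congrArg Matrix.det hNA
    rw [Matrix.det_mul, hdet, mul_one, Matrix.det_one] at this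
    exact this
  have hNCH : N ^ 3 = (sec A) • N ^ 2 - A.trace • N + 1 := by
    have e1 : N ^ 3 * A ^ 3 = 1 := by
      have : N ^ 3 * A ^ 3 = N * (N * (N * A) * A) * A := by noncomm_ring
      rw [this, hNA, mul_one, hNA, mul_one, hNA]
    have e2 : N ^ 3 * A ^ 2 = N := by
      have : N ^ 3 * A ^ 2 = N * (N * (N * A) * A) := by noncomm_ring
      rw [this, hNA, mul_one, hNA, mul_one]
    have e3 : N ^ 3 * A = N ^ 2 := by
      have : N ^ 3 * A = N * N * (N * A) := by noncomm_ring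
      rw [this, hNA, mul_one, pow_two]
    have e4 : (1 : Matrix (Fin 3) (Fin 3) ℤ) = A.trace • N - sec A • N ^ 2 + N ^ 3 := by
      calc (1 : Matrix (Fin 3) (Fin 3) ℤ) = N ^ 3 * A ^ 3 := e1.symm
        _ = N ^ 3 * (A.trace • A ^ 2 - sec A • A + 1) := by rw [hCH]
        _ = _ := by
          rw [mul_add, mul_sub, mul_smul_comm, mul_smul_comm, e2, e3, mul_one]
    rw [e4]; abel
  have hFN : ∀ y, F N y = - F A y := F_inv hNA hAN hdet
  have htrivN : ¬ Triv N x := by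
    rintro ⟨V, m, hV, hx⟩
    apply htriv
    refine ⟨V, m, ?_, hx⟩
    have h1 : (V : Matrix (Fin 3) (Fin 3) ℤ) * N = N * V := hV
    show (V : Matrix (Fin 3) (Fin 3) ℤ) * A = A * V
    calc (V : Matrix (Fin 3) (Fin 3) ℤ) * A = (A * N) * V * A := by rw [hAN, one_mul]
      _ = A * (N * V) * A := by rw [mul_assoc A N]
      _ = A * (V * N) * A := by rw [h1]
      _ = A * V * (N * A) := by noncomm_ring
      _ = A * V := by rw [hNA, mul_one]
  have b2 : r < G := by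
    by_contra hcon
    push Not at hcon
    apply htrivN
    refine bound' (N := N) hNdet hNCH (θ := q) (p := r * p) (q := r) (by rw [mul_comm]; exact hrq)
      hT (by
        have : q * (r * p) = (r * q) * p := by ring
        rw [this, hrq, hS]; ring)
      (by
        have : r - (r * p) ^ 2 / 4 = r ^ 2 * (q - p ^ 2 / 4) := by
          have : r ^ 2 * (q - p ^ 2 / 4) = r * (r * q) - (r * p) ^ 2 / 4 := by ring
          rw [this, hrq]; ring
        rw [this]; positivity)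
      (by rw [hFN]; exact neg_ne_zero.2 he)
      (by rw [hFN]; exact neg_ne_zero.2 hx0) (M := B)
      (by rw [hFN, abs_neg]; exact hx) ?_
    rw [hFN, neg_sq, hD, ← hG]; exact hcon
  have hG1 : 100 ≤ G := by rw [hG]; nlinarith [sq_nonneg (256 * ((D ^ 2 * B + 1 : ℤ) : ℝ) ^ 2)]
  have hp : |p| ≤ q + 1 := by
    apply abs_le_of_sq_le_sq _ (by linarith)
    nlinarith [sq_nonneg (q - 1)]
  constructor
  · rw [hS]
    calc |r + p| ≤ |r| + |p| := abs_add_le r p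
      _ ≤ G + (G + 1) := by rw [abs_of_pos hr]; linarith
      _ ≤ 2 * G ^ 2 := by nlinarith
  · rw [hT]
    calc |q + r * p| ≤ |q| + |r * p| := abs_add_le _ _
      _ = q + r * |p| := by rw [abs_of_pos hq, abs_mul, abs_of_pos hr]
      _ ≤ G + G * (G + 1) := by
          have : r * |p| ≤ G * (G + 1) := mul_le_mul b2.le (by linarith) (abs_nonneg _) (by linarith)
          linarith
      _ ≤ 2 * G ^ 2 := by nlinarith

lemma trace_inv {A : Matrix (Fin 3) (Fin 3) ℤ} (h : A.det = 1) : (A⁻¹).trace = sec A := by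
  rw [Matrix.inv_def, h, Ring.inverse_one, one_smul, Matrix.adjugate_fin_three,
    Matrix.trace_fin_three, sec]
  simp
  ring

lemma upper_entries {A M' W : Matrix (Fin 3) (Fin 3) ℤ} (hW : M' * W = W * A) (h10 : W 1 0 = 0)
    (h20 : W 2 0 = 0) (h21 : W 2 1 = 0) (hA : A 2 0 = 0) (hM : M' 2 0 = 0) :
    M' 1 0 * W 0 0 = W 1 1 * A 1 0 ∧ M' 2 1 * W 1 1 = W 2 2 * A 2 1 ∧
    M' 0 0 * W 0 0 = W 0 0 * A 0 0 + W 0 1 * A 1 0 ∧
    M' 1 0 * W 0 1 + M' 1 1 * W 1 1 = W 1 1 * A 1 1 + W 1 2 * A 2 1 ∧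
    M' 0 0 * W 0 1 + M' 0 1 * W 1 1 = W 0 0 * A 0 1 + W 0 1 * A 1 1 + W 0 2 * A 2 1 := by
  have e : ∀ i j, (M' * W) i j = (W * A) i j := fun i j => by rw [hW]
  have e10 := e 1 0
  have e21 := e 2 1
  have e00 := e 0 0
  have e11 := e 1 1
  have e01 := e 0 1
  simp only [Matrix.mul_apply, Fin.sum_univ_three, h10, h20, h21, hA, hM, mul_zero, zero_mul,
    add_zero, zero_add] at e10 e21 e00 e11 e01
  exact ⟨e10, e21, e00, e11, e01⟩

lemma upper_det {W : Matrix (Fin 3) (Fin 3) ℤ} (hW : IsUnit W.det) (h10 : W 1 0 = 0)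
    (h20 : W 2 0 = 0) (h21 : W 2 1 = 0) :
    (W 0 0 = 1 ∨ W 0 0 = -1) ∧ (W 1 1 = 1 ∨ W 1 1 = -1) ∧ (W 2 2 = 1 ∨ W 2 2 = -1) := by
  have h : W.det = W 0 0 * W 1 1 * W 2 2 := by
    rw [Matrix.det_fin_three, h10, h20, h21]; ring
  rw [h] at hW
  have h1 := isUnit_of_mul_isUnit_left hW
  exact ⟨Int.isUnit_iff.1 (isUnit_of_mul_isUnit_left h1),
    Int.isUnit_iff.1 (isUnit_of_mul_isUnit_right h1),
    Int.isUnit_iff.1 (isUnit_of_mul_isUnit_right hW)⟩

lemma conj_mul {A M' : Matrix (Fin 3) (Fin 3) ℤ} {U : GL (Fin 3) ℤ}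
    (h : M' = (U : Matrix (Fin 3) (Fin 3) ℤ) * A * ((U⁻¹ : GL (Fin 3) ℤ) :
      Matrix (Fin 3) (Fin 3) ℤ)) :
    M' * (U : Matrix (Fin 3) (Fin 3) ℤ) = (U : Matrix (Fin 3) (Fin 3) ℤ) * A := by
  rw [h, mul_assoc, ← Units.val_mul, inv_mul_cancel, Units.val_one, mul_one]

lemma gl_det (U : GL (Fin 3) ℤ) : IsUnit (U : Matrix (Fin 3) (Fin 3) ℤ).det :=
  (Matrix.isUnit_iff_isUnit_det _).1 U.isUnit

lemma complexity_eq {A M' : Matrix (Fin 3) (Fin 3) ℤ} (hA : A 2 0 = 0) (hM : M' 2 0 = 0)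
    (h : UpperConj A M') : complexity M' = complexity A := by
  obtain ⟨U, ⟨h10, h20, h21⟩, hU⟩ := h
  obtain ⟨e10, e21, -, -, -⟩ := upper_entries (conj_mul hU) h10 h20 h21 hA hM
  obtain ⟨d0, d1, d2⟩ := upper_det (gl_det U) h10 h20 h21
  have a1 : |M' 1 0| = |A 1 0| := by
    have := congrArg abs e10
    rw [abs_mul, abs_mul] at this
    rcases d0 with d0 | d0 <;> rcases d1 with d1 | d1 <;> simpa [d0, d1] using this
  have a2 : |M' 2 1| = |A 2 1| := by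
    have := congrArg abs e21
    rw [abs_mul, abs_mul] at this
    rcases d1 with d1 | d1 <;> rcases d2 with d2 | d2 <;> simpa [d1, d2] using this
  rw [complexity, complexity, abs_mul, abs_mul, abs_pow, abs_pow, a1, a2]

lemma perfect_unique {A M' : Matrix (Fin 3) (Fin 3) ℤ} (hA : IsPerfect A) (hM : IsPerfect M')
    (h : UpperConj A M') : M' = A := by
  obtain ⟨U, ⟨h10, h20, h21⟩, hU⟩ := h
  have hmul := conj_mul hU
  obtain ⟨e10, e21, e00, e11, e01⟩ := upper_entries hmul h10 h20 h21 hA.2.1 hM.2.1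
  obtain ⟨d0, d1, d2⟩ := upper_det (gl_det U) h10 h20 h21
  obtain ⟨-, hA20, a1, a2, a3, a4, a5, a6⟩ := hA
  obtain ⟨-, hM20, m1, m2, m3, m4, m5, m6⟩ := hM
  generalize hW : (U : Matrix (Fin 3) (Fin 3) ℤ) = W at *
  have key0 : ∀ x y z w : ℤ, 0 ≤ x → x < w → 0 ≤ y → y < w → x = y + z * w → z = 0 := by
    intro x y z w hx hxw hy hyw hxy
    have hw : 0 < w := by omega
    rcases lt_trichotomy z 0 with hz | hz | hz
    · nlinarith
    · exact hz
    · nlinarith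
  have c01 : W 0 0 = W 1 1 := by
    rcases d0 with d0 | d0 <;> rcases d1 with d1 | d1 <;> rw [d0, d1] at e10 ⊢ <;> omega
  have c12 : W 1 1 = W 2 2 := by
    rcases d1 with d1 | d1 <;> rcases d2 with d2 | d2 <;> rw [d1, d2] at e21 ⊢ <;> omega
  rw [c01] at e10 e00 e01
  have hs : W 1 1 * W 1 1 = 1 := by rcases d1 with d1 | d1 <;> rw [d1] <;> norm_num
  have f10 : M' 1 0 = A 1 0 := by
    have : W 1 1 * (W 1 1 * (M' 1 0 - A 1 0)) = 0 := by linear_combination (W 1 1) * e10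
    have h2 : M' 1 0 - A 1 0 = 0 := by linear_combination this - (M' 1 0 - A 1 0) * hs
    omega
  rw [← c12] at e21
  have f21 : M' 2 1 = A 2 1 := by
    have h2 : M' 2 1 - A 2 1 = 0 := by
      linear_combination (W 1 1) * e21 - (M' 2 1 - A 2 1) * hs
    omega
  have g01 : W 0 1 = 0 := by
    have h1 : M' 0 0 = A 0 0 + (W 1 1 * W 0 1) * A 1 0 := by
      linear_combination (W 1 1) * e00 - (M' 0 0 - A 0 0) * hs
    have h2 := key0 _ _ _ _ m1 (by rw [← f10]; exact m2) a1 a2 h1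
    rcases mul_eq_zero.1 h2 with h3 | h3
    · rw [h3] at hs; norm_num at hs
    · exact h3
  rw [g01] at e11 e01
  have g12 : W 1 2 = 0 := by
    have h1 : M' 1 1 = A 1 1 + (W 1 1 * W 1 2) * A 2 1 := by
      linear_combination (W 1 1) * e11 - (M' 1 1 - A 1 1) * hs
    have h2 := key0 _ _ _ _ m5 (by rw [← f21]; exact m6) a5 a6 h1
    rcases mul_eq_zero.1 h2 with h3 | h3
    · rw [h3] at hs; norm_num at hs
    · exact h3
  have g02 : W 0 2 = 0 := by
    have h1 : M' 0 1 = A 0 1 + (W 1 1 * W 0 2) * A 2 1 := by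
      linear_combination (W 1 1) * e01 - (M' 0 1 - A 0 1) * hs
    have h2 := key0 _ _ _ _ m3 (by rw [← f21]; exact m4) a3 a4 h1
    rcases mul_eq_zero.1 h2 with h3 | h3
    · rw [h3] at hs; norm_num at hs
    · exact h3
  have hWs : W = (W 1 1) • (1 : Matrix (Fin 3) (Fin 3) ℤ) := by
    ext i j
    fin_cases i <;> fin_cases j <;> simp [h10, h20, h21, g01, g02, g12, c01, ← c12]
  have h3 : (W 1 1) • M' = (W 1 1) • A := by
    have h4 : M' * ((W 1 1) • (1 : Matrix (Fin 3) (Fin 3) ℤ)) =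
        ((W 1 1) • (1 : Matrix (Fin 3) (Fin 3) ℤ)) * A := by
      rw [← hWs]; exact hmul
    rw [mul_smul_comm, mul_one, smul_mul_assoc, one_mul] at h4
    exact h4
  have hne : W 1 1 ≠ 0 := by rintro h0; rw [h0] at hs; norm_num at hs
  exact smul_right_injective _ hne h3

/-- the effective statement -/
lemma effective {A : Matrix (Fin 3) (Fin 3) ℤ} (hA : IsNRS A) (hsh : HessenbergShaped A) {B : ℤ}
    (hbig : bd (complexity A) B < |A.trace| ∨ bd (complexity A) B < |sec A|)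
    {M' : Matrix (Fin 3) (Fin 3) ℤ} (hM' : HessenbergShaped M') (hconj : IntConj A M')
    (hle : complexity M' ≤ B) : UpperConj A M' := by
  obtain ⟨U, hU⟩ := hconj
  have hFM' : F M' ![1, 0, 0] = M' 1 0 ^ 2 * M' 2 1 := F_hess hM'.2.1
  have hFA : F A ![1, 0, 0] = A 1 0 ^ 2 * A 2 1 := F_hess hsh.2.1
  obtain ⟨x, hx⟩ : ∃ x, x = (((U⁻¹ : GL (Fin 3) ℤ) : Matrix (Fin 3) (Fin 3) ℤ) *ᵥ ![1, 0, 0]) :=
    ⟨_, rfl⟩
  have hFx : |F A x| = complexity M' := by
    rw [hx, ← F_conj, ← hU, hFM', complexity]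
  have hM'0 : complexity M' ≠ 0 := by
    rw [complexity]
    have h1 := hM'.2.2
    rw [abs_ne_zero]
    exact mul_ne_zero (pow_ne_zero 2 (left_ne_zero_of_mul h1)) (right_ne_zero_of_mul h1)
  have hx0 : F A x ≠ 0 := by
    intro h0
    rw [h0, abs_zero] at hFx
    exact hM'0 hFx.symm
  have hA0 : A 1 0 ^ 2 * A 2 1 ≠ 0 := by
    have h1 := hsh.2.2
    exact mul_ne_zero (pow_ne_zero 2 (left_ne_zero_of_mul h1)) (right_ne_zero_of_mul h1)
  have htriv : Triv A x := by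
    by_contra hcon
    obtain ⟨b1, b2⟩ := bounded (B := B) hA hFA hA0 hx0 (by rw [hFx]; exact hle) hcon rfl
    have hG : (2 * ((256 * (((A 1 0 ^ 2 * A 2 1) ^ 2 * B + 1 : ℤ) : ℝ) ^ 2) ^ 2 + 100) ^ 2) =
        ((bd (complexity A) B : ℤ) : ℝ) := by
      rw [bd, complexity, sq_abs]
      push_cast
      ring
    rw [hG] at b1 b2
    have b1' : |A.trace| ≤ bd (complexity A) B := by exact_mod_cast b1
    have b2' : |sec A| ≤ bd (complexity A) B := by exact_mod_cast b2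
    omega
  obtain ⟨V, m, hV, hxV⟩ := htriv
  -- `W = U V`
  have hWe : m • (((U * V : GL (Fin 3) ℤ) : Matrix (Fin 3) (Fin 3) ℤ) *ᵥ ![1, 0, 0]) =
      ![1, 0, 0] := by
    rw [Units.val_mul, ← Matrix.mulVec_mulVec, ← Matrix.mulVec_smul, ← hxV, hx,
      Matrix.mulVec_mulVec, ← Units.val_mul, mul_inv_cancel, Units.val_one, Matrix.one_mulVec]
  have hconj' : M' * ((U * V : GL (Fin 3) ℤ) : Matrix (Fin 3) (Fin 3) ℤ) =
      ((U * V : GL (Fin 3) ℤ) : Matrix (Fin 3) (Fin 3) ℤ) * A := by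
    have h1 := conj_mul hU
    have h2 : (V : Matrix (Fin 3) (Fin 3) ℤ) * A = A * V := hV
    rw [Units.val_mul, ← mul_assoc, h1, mul_assoc, mul_assoc, h2]
  obtain ⟨W, hW⟩ : ∃ W : GL (Fin 3) ℤ, W = U * V := ⟨_, rfl⟩
  rw [← hW] at hWe hconj'
  have w0 := congrFun hWe 0
  have w1 := congrFun hWe 1
  have w2 := congrFun hWe 2
  simp [Matrix.mulVec, dotProduct, Fin.sum_univ_three] at w0 w1 w2
  have hm0 : m ≠ 0 := by rintro rfl; simp at w0
  have w1' : (W : Matrix (Fin 3) (Fin 3) ℤ) 1 0 = 0 := by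
    rcases w1 with h | h
    · exact absurd h hm0
    · exact h
  have w2' : (W : Matrix (Fin 3) (Fin 3) ℤ) 2 0 = 0 := by
    rcases w2 with h | h
    · exact absurd h hm0
    · exact h
  have w21 : (W : Matrix (Fin 3) (Fin 3) ℤ) 2 1 = 0 := by
    have h1 : (M' * (W : Matrix (Fin 3) (Fin 3) ℤ)) 2 0 =
      ((W : Matrix (Fin 3) (Fin 3) ℤ) * A) 2 0 := by rw [hconj']
    simp only [Matrix.mul_apply, Fin.sum_univ_three, w1', w2', hM'.2.1, hsh.2.1, mul_zero,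
      zero_mul, add_zero, zero_add] at h1
    rcases mul_eq_zero.1 h1.symm with h2 | h2
    · exact h2
    · exact absurd h2 (left_ne_zero_of_mul hsh.2.2)
  refine ⟨W, ⟨w1', w2', w21⟩, ?_⟩
  rw [← hconj', mul_assoc, ← Units.val_mul, mul_inv_cancel, Units.val_one, mul_one]

lemma shape {Ω : HessenbergType} {A : Matrix (Fin 3) (Fin 3) ℤ} (hA : A ∈ Ω.H) :
    A 0 0 = Ω.a11 ∧ A 1 0 = Ω.a21 ∧ A 2 0 = 0 ∧ A 0 1 = Ω.a12 ∧ A 1 1 = Ω.a22 ∧ A 2 1 = Ω.a32 := by
  obtain ⟨v, _, m, n, rfl⟩ := hA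
  simp [HessenbergType.mat]

/-- sanity check: the set `H(Ω)` does not depend on the choice of the admissible vector `v` -/
lemma H_eq (Ω : HessenbergType) (v : Fin 3 → ℤ) (hv : (Ω.mat v 0 0).det = 1) :
    Ω.H = {A | ∃ m n : ℤ, A = Ω.mat v m n} := by
  ext A
  constructor
  · rintro ⟨w, hw, m, n, rfl⟩
    rw [HessenbergType.mat, Matrix.det_fin_three] at hv hw
    simp at hv hw
    have hd : Ω.a11 * (Ω.a22 * (w 2 - v 2) - (w 1 - v 1) * Ω.a32) - Ω.a12 * Ω.a21 * (w 2 - v 2) +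
        (w 0 - v 0) * Ω.a21 * Ω.a32 = 0 := by linarith
    refine ⟨m + ((w 0 - v 0) * (Ω.a22 * v 2 - v 1 * Ω.a32) - Ω.a12 * ((w 1 - v 1) * v 2 -
      v 1 * (w 2 - v 2)) + v 0 * ((w 1 - v 1) * Ω.a32 - Ω.a22 * (w 2 - v 2))),
      n + (Ω.a11 * ((w 1 - v 1) * v 2 - v 1 * (w 2 - v 2)) - (w 0 - v 0) * Ω.a21 * v 2 +
        v 0 * Ω.a21 * (w 2 - v 2)), ?_⟩
    rw [HessenbergType.mat, HessenbergType.mat]
    ext i j
    fin_cases i <;> fin_cases j <;> simp
    · linear_combination (-(w 0 - v 0)) * hv + v 0 * hd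
    · linear_combination (-(w 1 - v 1)) * hv + v 1 * hd
    · linear_combination (-(w 2 - v 2)) * hv + v 2 * hd
  · rintro ⟨m, n, rfl⟩
    exact ⟨v, hv, m, n, rfl⟩

/-- matrices of type `Ω` are determined by trace and second coefficient -/
lemma inj_type {Ω : HessenbergType} {A B : Matrix (Fin 3) (Fin 3) ℤ} (hA : A ∈ Ω.H) (hA2 : IsNRS A)
    (hB : B ∈ Ω.H) (hB2 : IsNRS B) (hS : A.trace = B.trace) (hT : sec A = sec B) : A = B := by
  have h21 := Ω.one_le_a21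
  have h32 := Ω.one_le_a32
  obtain ⟨s1, s2, s3, s4, s5, s6⟩ := shape hA
  obtain ⟨t1, t2, t3, t4, t5, t6⟩ := shape hB
  have hdA := hA2.1
  have hdB := hB2.1
  rw [Matrix.trace_fin_three, Matrix.trace_fin_three] at hS
  rw [sec, sec] at hT
  rw [Matrix.det_fin_three] at hdA hdB
  rw [s1, s5, t1, t5] at hS
  have c2 : A 2 2 = B 2 2 := by linarith
  rw [s1, s2, s3, s4, s5, s6, t1, t2, t3, t4, t5, t6, c2] at hT
  have c1 : A 1 2 = B 1 2 := by
    have : A 1 2 * Ω.a32 = B 1 2 * Ω.a32 := by linarith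
    exact mul_right_cancel₀ (by omega) this
  rw [s1, s2, s3, s4, s5, s6, c2, c1] at hdA
  rw [t1, t2, t3, t4, t5, t6] at hdB
  have c0 : A 0 2 = B 0 2 := by
    have : A 0 2 * (Ω.a21 * Ω.a32) = B 0 2 * (Ω.a21 * Ω.a32) := by linarith
    exact mul_right_cancel₀ (mul_ne_zero (by omega) (by omega)) this
  ext i j
  fin_cases i <;> fin_cases j <;> simp [*]

lemma shaped_of_mem {Ω : HessenbergType} {A : Matrix (Fin 3) (Fin 3) ℤ} (hA : A ∈ Ω.H)
    (hNRS : IsNRS A) : HessenbergShaped A ∧ complexity A = Ω.a21 ^ 2 * Ω.a32 := by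
  have h21 := Ω.one_le_a21
  have h32 := Ω.one_le_a32
  obtain ⟨s1, s2, s3, s4, s5, s6⟩ := shape hA
  refine ⟨⟨hNRS.1, s3, ?_⟩, ?_⟩
  · rw [s2, s6]
    exact mul_ne_zero (by omega) (by omega)
  · rw [complexity, s2, s6, abs_of_nonneg]
    have h1 : 0 ≤ Ω.a21 := by omega
    have h2 : 0 ≤ Ω.a32 := by omega
    positivity

/-- a set of NRS-matrices of type `Ω` with bounded trace and second coefficient -/
lemma card_bound (Ω : HessenbergType) (C : ℤ) (hC : 0 ≤ C)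
    (s : Set (Matrix (Fin 3) (Fin 3) ℤ))
    (hs : ∀ A ∈ s, A ∈ Ω.H ∧ IsNRS A ∧ |A.trace| ≤ C ∧ |sec A| ≤ C) :
    s.Finite ∧ (s.ncard : ℤ) ≤ (2 * C + 1) ^ 2 := by
  have hinj : Set.InjOn (fun A : Matrix (Fin 3) (Fin 3) ℤ => (A.trace, sec A)) s := by
    intro A hA B hB hAB
    simp only [Prod.mk.injEq] at hAB
    obtain ⟨a1, a2, -, -⟩ := hs A hA
    obtain ⟨b1, b2, -, -⟩ := hs B hB
    exact inj_type a1 a2 b1 b2 hAB.1 hAB.2
  have hsub : (fun A : Matrix (Fin 3) (Fin 3) ℤ => (A.trace, sec A)) '' s ⊆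
      ((Finset.Icc (-C) C ×ˢ Finset.Icc (-C) C : Finset (ℤ × ℤ)) : Set (ℤ × ℤ)) := by
    rintro _ ⟨A, hA, rfl⟩
    obtain ⟨-, -, h1, h2⟩ := hs A hA
    rw [abs_le] at h1 h2
    simp only [Finset.coe_product, Finset.coe_Icc, Set.mem_prod, Set.mem_Icc]
    exact ⟨h1, h2⟩
  have hfin : s.Finite := Set.Finite.of_finite_image ((Finset.finite_toSet _).subset hsub) hinj
  refine ⟨hfin, ?_⟩
  have h1 : s.ncard = ((fun A : Matrix (Fin 3) (Fin 3) ℤ => (A.trace, sec A)) '' s).ncard :=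
    hinj.ncard_image.symm
  have h2 := Set.ncard_le_ncard hsub (Finset.finite_toSet _)
  rw [Set.ncard_coe_finset, Finset.card_product, Int.card_Icc] at h2
  rw [h1]
  have h3 : ((C + 1 - -C).toNat : ℤ) = 2 * C + 1 := by omega
  calc ((((fun A : Matrix (Fin 3) (Fin 3) ℤ => (A.trace, sec A)) '' s).ncard : ℕ) : ℤ)
      ≤ (((C + 1 - -C).toNat * (C + 1 - -C).toNat : ℕ) : ℤ) := by exact_mod_cast h2
    _ = (2 * C + 1) ^ 2 := by push_cast; rw [h3]; ring

lemma bd_nonneg (s B : ℤ) : 0 ≤ bd s B := by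
  rw [bd]; positivity

lemma reduced_of {A : Matrix (Fin 3) (Fin 3) ℤ} (hsh : HessenbergShaped A) {B : ℤ}
    (hB : complexity A ≤ B)
    (h : ∀ M' : Matrix (Fin 3) (Fin 3) ℤ, HessenbergShaped M' → IntConj A M' →
      complexity M' ≤ B → UpperConj A M') : IsReduced A := by
  refine ⟨hsh, fun M' hM' hconj => ?_⟩
  by_contra hcon
  push Not at hcon
  have h1 := complexity_eq hsh.2.1 hM'.2.1 (h M' hM' hconj (hcon.le.trans hB))
  omega

lemma perfect_shaped {A : Matrix (Fin 3) (Fin 3) ℤ} (h : IsPerfect A) : HessenbergShaped A := by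
  obtain ⟨h0, h1, h2, h3, h4, h5, -, -⟩ := h
  exact ⟨h0, h1, mul_ne_zero (by omega) (by omega)⟩

/-- the exceptional set of the second statement -/
lemma exceptional (Ω : HessenbergType) (B : ℤ) (hB : Ω.a21 ^ 2 * Ω.a32 ≤ B) :
    {A : Matrix (Fin 3) (Fin 3) ℤ | A ∈ Ω.H ∧ IsNRS A ∧
        ¬ (IsReduced A ∧ ∀ M' : Matrix (Fin 3) (Fin 3) ℤ, HessenbergShaped M' → IntConj A M' →
          complexity M' ≤ B → UpperConj A M')}.Finite ∧
      (({A : Matrix (Fin 3) (Fin 3) ℤ | A ∈ Ω.H ∧ IsNRS A ∧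
        ¬ (IsReduced A ∧ ∀ M' : Matrix (Fin 3) (Fin 3) ℤ, HessenbergShaped M' → IntConj A M' →
          complexity M' ≤ B → UpperConj A M')}.ncard : ℕ) : ℤ) ≤
        (2 * bd (Ω.a21 ^ 2 * Ω.a32) B + 1) ^ 2 := by
  apply card_bound Ω _ (bd_nonneg _ _)
  rintro A ⟨hAH, hNRS, hnot⟩
  obtain ⟨hsh, hcx⟩ := shaped_of_mem hAH hNRS
  refine ⟨hAH, hNRS, ?_⟩
  by_contra hcon
  apply hnot
  have hbig : bd (complexity A) B < |A.trace| ∨ bd (complexity A) B < |sec A| := by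
    rw [hcx]
    by_contra h2
    push Not at h2
    exact hcon h2
  have h1 : ∀ M' : Matrix (Fin 3) (Fin 3) ℤ, HessenbergShaped M' → IntConj A M' →
      complexity M' ≤ B → UpperConj A M' :=
    fun M' hM' hc hle => effective hNRS hsh hbig hM' hc hle
  exact ⟨reduced_of hsh (by rw [hcx]; exact hB) h1, h1⟩

/-- **Small Hessenberg forms of NRS-matrices are unique.**

1. (Q1) For every Hessenberg type `Ω`, all but finitely many matrices in `NRS(Ω)` are reduced.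
2. (Uniform and effective.)  Let `A` be any Hessenberg-shaped NRS-matrix, of complexity `s`, and `B`
   any bound.  If the trace of `A` or of `A⁻¹` is larger than the explicit constant `bd s B` in
   absolute value, then every Hessenberg-shaped matrix of complexity at most `B` which is conjugate
   to `A` over `ℤ` is conjugate to `A` by an upper triangular integer matrix (in particular it has
   the same complexity `s`).
3. For every type `Ω` and every `B ≥ ς(Ω)`, all but at most `(2 bd ς(Ω) B + 1)²` matrices `A` in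
   `NRS(Ω)` are reduced and have no Hessenberg-shaped conjugates of complexity at most `B` besides
   the conjugates by upper triangular matrices.
4. For every type `Ω` and every `B`, all but finitely many perfect matrices in `NRS(Ω)` are the only
   perfect Hessenberg matrix of complexity at most `B` in their integer conjugacy class. -/
theorem result :
    (∀ Ω : HessenbergType,
      {A : Matrix (Fin 3) (Fin 3) ℤ | A ∈ Ω.H ∧ IsNRS A ∧ ¬ IsReduced A}.Finite) ∧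
    (∀ A : Matrix (Fin 3) (Fin 3) ℤ, IsNRS A → HessenbergShaped A → ∀ B : ℤ,
      (bd (complexity A) B < |A.trace| ∨ bd (complexity A) B < |(A⁻¹).trace|) →
      ∀ M' : Matrix (Fin 3) (Fin 3) ℤ, HessenbergShaped M' → IntConj A M' → complexity M' ≤ B →
        UpperConj A M' ∧ complexity M' = complexity A) ∧
    (∀ (Ω : HessenbergType) (B : ℤ), Ω.a21 ^ 2 * Ω.a32 ≤ B →
      {A : Matrix (Fin 3) (Fin 3) ℤ | A ∈ Ω.H ∧ IsNRS A ∧
        ¬ (IsReduced A ∧ ∀ M' : Matrix (Fin 3) (Fin 3) ℤ, HessenbergShaped M' → IntConj A M' →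
          complexity M' ≤ B → UpperConj A M')}.Finite ∧
      (({A : Matrix (Fin 3) (Fin 3) ℤ | A ∈ Ω.H ∧ IsNRS A ∧
        ¬ (IsReduced A ∧ ∀ M' : Matrix (Fin 3) (Fin 3) ℤ, HessenbergShaped M' → IntConj A M' →
          complexity M' ≤ B → UpperConj A M')}.ncard : ℕ) : ℤ) ≤
        (2 * bd (Ω.a21 ^ 2 * Ω.a32) B + 1) ^ 2) ∧
    (∀ (Ω : HessenbergType) (B : ℤ),
      {A : Matrix (Fin 3) (Fin 3) ℤ | A ∈ Ω.H ∧ IsNRS A ∧ IsPerfect A ∧
        ∃ M' : Matrix (Fin 3) (Fin 3) ℤ, IsPerfect M' ∧ IntConj A M' ∧ complexity M' ≤ B ∧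
          M' ≠ A}.Finite) := by
  refine ⟨fun Ω => ?_, ?_, exceptional, fun Ω B => ?_⟩
  · refine (exceptional Ω _ le_rfl).1.subset ?_
    rintro A ⟨h1, h2, h3⟩
    exact ⟨h1, h2, fun h4 => h3 h4.1⟩
  · intro A hA hsh B hbig M' hM' hconj hle
    rw [trace_inv hA.1] at hbig
    have h1 := effective hA hsh hbig hM' hconj hle
    exact ⟨h1, complexity_eq hsh.2.1 hM'.2.1 h1⟩
  · refine (exceptional Ω (max B (Ω.a21 ^ 2 * Ω.a32)) (le_max_right _ _)).1.subset ?_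
    rintro A ⟨h1, h2, h3, M', h4, h5, h6, h7⟩
    refine ⟨h1, h2, fun h8 => h7 ?_⟩
    exact perfect_unique h3 h4
      (h8.2 M' (perfect_shaped h4) h5 (h6.trans (le_max_left _ _)))

end Pool.Agent.Results.MP_44891f_nt.SmallFormsUnique
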